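import Pool.Agent.W2helper31.GP.Stm5

/-!
Project GP5, piece TAN.
-/

set_option autoImplicit false

namespace Pool.Agent.W2helper77.GP5

theorem hasDeriv (t : ℝ) (ht : -1 < t) :
    HasDerivAt (fun t : ℝ => t - t ^ 2 / 2 + t ^ 3 / 3 - Real.log (1 + t)) (t ^ 3 / (1 + t)) t := by
  have h1 : 1 + t ≠ 0 := by linarith
  have h2 : HasDerivAt (fun t : ℝ => Real.log (1 + t)) (1 / (1 + t)) t := by
    have := ((hasDerivAt_id t).const_add 1).log h1
    simpa using this
  have h3 : HasDerivAt (fun t : ℝ => t - t ^ 2 / 2 + t ^ 3 / 3)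
      (1 - ((2 : ℕ) : ℝ) * t ^ (2 - 1) / 2 + ((3 : ℕ) : ℝ) * t ^ (3 - 1) / 3) t :=
    ((hasDerivAt_id' t).sub ((hasDerivAt_pow 2 t).div_const 2)).add
      ((hasDerivAt_pow 3 t).div_const 3)
  have h4 : HasDerivAt (fun t : ℝ => t - t ^ 2 / 2 + t ^ 3 / 3 - Real.log (1 + t))
      (1 - ((2 : ℕ) : ℝ) * t ^ (2 - 1) / 2 + ((3 : ℕ) : ℝ) * t ^ (3 - 1) / 3 - 1 / (1 + t)) t :=
    h3.sub h2
  refine h4.congr_deriv ?_
  have e2 : t ^ (2 - 1) = t := by norm_num
  have e3 : t ^ (3 - 1) = t ^ 2 := by norm_num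
  rw [e2, e3]
  push_cast
  rw [eq_div_iff h1]
  have e4 : 1 / (1 + t) * (1 + t) = 1 := by field_simp
  linear_combination -e4

theorem log_le (u : ℝ) (hu : -1 < u) : Real.log (1 + u) ≤ u - u ^ 2 / 2 + u ^ 3 / 3 := by
  rcases le_total 0 u with h | h
  · have hm : MonotoneOn (fun t : ℝ => t - t ^ 2 / 2 + t ^ 3 / 3 - Real.log (1 + t))
        (Set.Icc 0 u) := by
      refine monotoneOn_of_deriv_nonneg (convex_Icc 0 u) ?_ ?_ ?_
      · intro t ht
        exact (hasDeriv t (by linarith [ht.1])).continuousAt.continuousWithinAt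
      · intro t ht
        rw [interior_Icc] at ht
        exact (hasDeriv t (by linarith [ht.1])).differentiableAt.differentiableWithinAt
      · intro t ht
        rw [interior_Icc] at ht
        rw [(hasDeriv t (by linarith [ht.1])).deriv]
        exact div_nonneg (pow_nonneg ht.1.le 3) (by linarith [ht.1])
    have := hm ⟨le_rfl, h⟩ ⟨h, le_rfl⟩ h
    simp only at this
    norm_num at this
    linarith
  · have hm : AntitoneOn (fun t : ℝ => t - t ^ 2 / 2 + t ^ 3 / 3 - Real.log (1 + t))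
        (Set.Icc u 0) := by
      refine antitoneOn_of_deriv_nonpos (convex_Icc u 0) ?_ ?_ ?_
      · intro t ht
        exact (hasDeriv t (by linarith [ht.1])).continuousAt.continuousWithinAt
      · intro t ht
        rw [interior_Icc] at ht
        exact (hasDeriv t (by linarith [ht.1])).differentiableAt.differentiableWithinAt
      · intro t ht
        rw [interior_Icc] at ht
        rw [(hasDeriv t (by linarith [ht.1])).deriv]
        refine div_nonpos_of_nonpos_of_nonneg ?_ (by linarith [ht.1])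
        have h1 : 0 ≤ t ^ 2 := sq_nonneg t
        have h2 : t ^ 3 = t ^ 2 * t := by ring
        rw [h2]
        exact mul_nonpos_of_nonneg_of_nonpos h1 ht.2.le
    have := hm ⟨le_rfl, h⟩ ⟨h, le_rfl⟩ h
    simp only at this
    norm_num at this
    linarith

theorem mul_log_le (u : ℝ) (h1 : -(1 / 2) ≤ u) (h2 : u ≤ 1 / 2) :
    (1 + u) * Real.log (1 + u) ≤ u + 2 / 3 * u ^ 2 := by
  have h3 := log_le u (by linarith)
  have h4 : (1 + u) * Real.log (1 + u) ≤ (1 + u) * (u - u ^ 2 / 2 + u ^ 3 / 3) :=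
    mul_le_mul_of_nonneg_left h3 (by linarith)
  have h5 : 0 ≤ u ^ 2 * ((2 * u + 1) * (1 - u)) :=
    mul_nonneg (sq_nonneg u) (mul_nonneg (by linarith) (by linarith))
  nlinarith

theorem p_tan : Pool.Agent.W2helper31.GP.P_TAN := by
  intro p f x hp hp1 hf hx
  have hf' := abs_le.1 hf
  have hu1 : -(1 / 2) ≤ p * f := by nlinarith [hf'.1, hf'.2]
  have hu2 : p * f ≤ 1 / 2 := by nlinarith [hf'.1, hf'.2]
  have hpos : 0 < 1 + p * f := by linarith
  have h1 : x ^ p = Real.exp (p * Real.log x) := by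
    rw [Real.rpow_def_of_pos hx, mul_comm]
  have h2 : Real.exp (p * Real.log x) =
      (1 + p * f) * Real.exp (p * Real.log x - Real.log (1 + p * f)) := by
    rw [Real.exp_sub, Real.exp_log hpos]
    field_simp
  have h3 := Real.add_one_le_exp (p * Real.log x - Real.log (1 + p * f))
  have h4 := mul_le_mul_of_nonneg_left h3 hpos.le
  have h5 := mul_log_le (p * f) hu1 hu2
  rw [h1, h2]
  nlinarith

end Pool.Agent.W2helper77.GP5
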